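import Pool.Agent.helper11.TX.Spec

set_option autoImplicit false

namespace Pool.Agent.helper11.TX

open Finset Pool.Agent.helper85.FC

/-- a good pair of vertices gives a true case -/
theorem PU_tc (W : ℕ) (hW : 30 ∣ W) (v w : ℕ × ℤ) (hv : Vx W v) (hw : Vx W w) (hne : v ≠ w)
    (hR : Rl v w) (g a b : ℕ) (h1 : v.1 = g * b) (h2 : w.1 = g * a) (hab : Nat.Coprime a b) :
    TrueCase a b ((b : ℤ) * w.2 - (a : ℤ) * v.2) := by
  obtain ⟨α, x⟩ := v
  obtain ⟨α', y⟩ := w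
  obtain ⟨hα, hαx, hxW⟩ := hv
  obtain ⟨hα', hα'y, hyW⟩ := hw
  simp only at h1 h2 hα hαx hxW hα' hα'y hyW ⊢
  have hg : 0 < g := Nat.pos_of_ne_zero fun h => by rw [h1, h, zero_mul] at hα; exact lt_irrefl _ hα
  have hb : 0 < b := Nat.pos_of_ne_zero fun h => by rw [h1, h, mul_zero] at hα; exact lt_irrefl _ hα
  have ha : 0 < a := Nat.pos_of_ne_zero fun h => by rw [h2, h, mul_zero] at hα'; exact lt_irrefl _ hα'
  have habZ : IsCoprime (a : ℤ) (b : ℤ) := Nat.isCoprime_iff_coprime.mpr hab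
  have hbx : IsCoprime (b : ℤ) x := by
    refine hαx.of_isCoprime_of_dvd_left ?_
    rw [h1]; push_cast; exact Dvd.intro_left _ rfl
  have hay : IsCoprime (a : ℤ) y := by
    refine hα'y.of_isCoprime_of_dvd_left ?_
    rw [h2]; push_cast; exact Dvd.intro_left _ rfl
  have h2W : (2 : ℤ) ∣ (W : ℤ) := by
    have : (2 : ℕ) ∣ W := dvd_trans (by norm_num) hW
    exact_mod_cast this
  have odd_of : ∀ z : ℤ, IsCoprime z (W : ℤ) → Odd z := by
    intro z hz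
    have h := hz.of_isCoprime_of_dvd_right h2W
    rw [← Int.not_even_iff_odd]
    intro he
    have h3 : IsCoprime (2 : ℤ) 2 := h.of_isCoprime_of_dvd_left he.two_dvd
    have h4 : IsUnit (2 : ℤ) := isCoprime_self.mp h3
    rw [Int.isUnit_iff] at h4
    omega
  have hxo := odd_of x hxW
  have hyo := odd_of y hyW
  refine ⟨ha, hb, ?_, hab, ?_, ?_, ?_, ?_⟩
  · intro hc
    have hc' : (b : ℤ) * y = a * x := by linarith
    have hbd : (b : ℤ) ∣ x := habZ.symm.dvd_of_dvd_mul_left (hc' ▸ Dvd.intro _ rfl)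
    have had : (a : ℤ) ∣ y := habZ.dvd_of_dvd_mul_left (hc'.symm ▸ Dvd.intro _ rfl)
    have hbu : IsUnit (b : ℤ) := hbx.isUnit_of_dvd' dvd_rfl hbd
    have hau : IsUnit (a : ℤ) := hay.isUnit_of_dvd' dvd_rfl had
    rw [Int.isUnit_iff] at hbu hau
    have hb1 : b = 1 := by omega
    have ha1 : a = 1 := by omega
    apply hne
    rw [h1, h2, ha1, hb1]
    rw [ha1, hb1] at hc'
    have : y = x := by simpa using hc'
    rw [this]
  · have h : IsCoprime (a : ℤ) ((b : ℤ) * y) := habZ.mul_right hay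
    have e : (b : ℤ) * y - a * x = (b : ℤ) * y + a * (-x) := by ring
    rw [e]
    exact h.add_mul_left_right (-x)
  · have h : IsCoprime (b : ℤ) (-((a : ℤ) * x)) := (habZ.symm.mul_right hbx).neg_right
    have e : (b : ℤ) * y - a * x = -((a : ℤ) * x) + b * y := by ring
    rw [e]
    exact h.add_mul_left_right y
  · rintro ⟨hao, hbo, hco⟩
    have hao' : Odd (a : ℤ) := by exact_mod_cast hao
    have hbo' : Odd (b : ℤ) := by exact_mod_cast hbo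
    have he : Even ((b : ℤ) * y - a * x) := (hbo'.mul hyo).sub_odd (hao'.mul hxo)
    exact (Int.not_even_iff_odd.mpr hco) he
  · have hR' : {n : ℕ | ((α : ℤ) * n - x).toNat.Prime ∧ ((α' : ℤ) * n - y).toNat.Prime}.Infinite := hR
    have hinj : Set.InjOn (fun n : ℕ => (((α : ℤ) * n - x).toNat, ((α' : ℤ) * n - y).toNat))
        {n : ℕ | ((α : ℤ) * n - x).toNat.Prime ∧ ((α' : ℤ) * n - y).toNat.Prime} := by
      intro n hn m hm hnm
      simp only [Prod.mk.injEq] at hnm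
      have hn0 := hn.1.pos
      have hm0 := hm.1.pos
      have h3 : (α : ℤ) * n - x = (α : ℤ) * m - x := by omega
      have h4 : (α : ℤ) * n = (α : ℤ) * m := by linarith
      have h5 : (n : ℤ) = m := mul_left_cancel₀ (by exact_mod_cast hα.ne') h4
      exact_mod_cast h5
    refine (hR'.image hinj).mono ?_
    rintro _ ⟨n, hn, rfl⟩
    refine ⟨hn.1, hn.2, ?_⟩
    have hn0 := hn.1.pos
    have hn1 := hn.2.pos
    have e1 : ((((α : ℤ) * n - x).toNat : ℕ) : ℤ) = (α : ℤ) * n - x := Int.toNat_of_nonneg (by omega)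
    have e2 : ((((α' : ℤ) * n - y).toNat : ℕ) : ℤ) = (α' : ℤ) * n - y := Int.toNat_of_nonneg (by omega)
    simp only
    rw [e1, e2, h1, h2]
    push_cast
    ring

theorem PU_Lam_nonneg (W a b : ℕ) (c : ℤ) : 0 ≤ Lam W a b c := by
  unfold Lam
  refine Finset.prod_nonneg fun l hl => ?_
  have hp : (2 : ℝ) ≤ l := by exact_mod_cast (Nat.prime_of_mem_primeFactors hl).two_le
  have h1 : (1 : ℝ) / l ≤ 1 / 2 := one_div_le_one_div_of_le (by norm_num) hp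
  have h2 : (2 : ℝ) / l ≤ 1 := by rw [div_le_one (by linarith)]; exact hp
  split_ifs <;> linarith

open Classical in
/-- the pairs `(x, y)` with `b y - a x` in the window, for fixed coprime `a`, `b` -/
theorem PU_T (h : CN_stmt) (W a b : ℕ) (hW : 0 < W) (ha : 0 < a) (hb : 0 < b) (hab : Nat.Coprime a b)
    (u₁ u₂ : ℤ) (M₁ M₂ : ℕ) :
    (#{p ∈ Ioc u₁ (u₁ + M₁) ×ˢ Ioc u₂ (u₂ + M₂) | (IsCoprime p.1 (W : ℤ) ∧ IsCoprime p.2 (W : ℤ)) ∧
      TrueCase a b ((b : ℤ) * p.2 - a * p.1) ∧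
      (b : ℤ) * p.2 - a * p.1 ∈ Ioc ((b : ℤ) * u₂) ((b : ℤ) * (u₂ + M₂))} : ℝ) ≤
    ∑ c ∈ Ioc ((b : ℤ) * u₂) ((b : ℤ) * (u₂ + M₂)) with TrueCase a b c,
      ((M₁ : ℝ) / b + 2 * W) * Lam W a b c := by
  set S := (Ioc u₁ (u₁ + M₁) ×ˢ Ioc u₂ (u₂ + M₂)).filter fun p : ℤ × ℤ =>
    (IsCoprime p.1 (W : ℤ) ∧ IsCoprime p.2 (W : ℤ)) ∧ TrueCase a b ((b : ℤ) * p.2 - a * p.1) ∧
      (b : ℤ) * p.2 - a * p.1 ∈ Ioc ((b : ℤ) * u₂) ((b : ℤ) * (u₂ + M₂)) with hS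
  set C := (Ioc ((b : ℤ) * u₂) ((b : ℤ) * (u₂ + M₂))).filter fun c => TrueCase a b c with hC
  have hmap : ∀ p ∈ S, (b : ℤ) * p.2 - a * p.1 ∈ C := by
    intro p hp
    rw [hS, mem_filter] at hp
    rw [hC, mem_filter]
    exact ⟨hp.2.2.2, hp.2.2.1⟩
  rw [Finset.card_eq_sum_card_fiberwise (f := fun p : ℤ × ℤ => (b : ℤ) * p.2 - a * p.1) (t := C) hmap]
  push_cast
  refine Finset.sum_le_sum fun c hc => ?_
  rw [hC, mem_filter] at hc
  obtain ⟨_, _, _, _, hac, hbc, _, _⟩ := hc.2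
  refine le_trans ?_ (h W a b c hW ha hb hab hac hbc u₁ M₁)
  norm_cast
  refine Finset.card_le_card_of_injOn (fun p : ℤ × ℤ => p.1) ?_ ?_
  · intro p hp
    have hp' := mem_filter.mp (Finset.mem_coe.mp hp)
    have hp'' := hp'.1
    rw [hS, mem_filter, mem_product] at hp''
    refine Finset.mem_coe.mpr (mem_filter.mpr ⟨hp''.1.1, hp''.2.1.1, p.2, hp'.2, hp''.2.1.2⟩)
  · intro p hp q hq hpq
    have hp' := (mem_filter.mp (Finset.mem_coe.mp hp)).2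
    have hq' := (mem_filter.mp (Finset.mem_coe.mp hq)).2
    simp only at hpq hp' hq'
    rw [hpq] at hp'
    have h3 : (b : ℤ) * p.2 = b * q.2 := by linarith
    have h4 : p.2 = q.2 := mul_left_cancel₀ (by exact_mod_cast hb.ne') h3
    exact Prod.ext hpq h4

open Classical in
/-- for fixed `x` few `y` are outside the window -/
theorem PU_B (a b N R : ℕ) (x u₂ : ℤ) (M₂ : ℕ) (hb : 0 < b) (haN : a ≤ N) (hx : |x| ≤ R) :
    #{y ∈ Ioc u₂ (u₂ + M₂) | ¬ (b : ℤ) * y - a * x ∈ Ioc ((b : ℤ) * u₂) ((b : ℤ) * (u₂ + M₂))} ≤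
      2 * (N * R) := by
  have hsub : (Ioc u₂ (u₂ + M₂)).filter (fun y =>
      ¬ (b : ℤ) * y - a * x ∈ Ioc ((b : ℤ) * u₂) ((b : ℤ) * (u₂ + M₂))) ⊆
      Ioc u₂ (u₂ + (N * R : ℕ)) ∪ Ioc (u₂ + M₂ - (N * R : ℕ)) (u₂ + M₂) := by
    intro y hy
    rw [mem_filter, mem_Ioc, mem_Ioc, not_and_or, not_lt, not_le] at hy
    obtain ⟨⟨hy1, hy2⟩, hy3⟩ := hy
    have hax : |(a : ℤ) * x| ≤ (N * R : ℕ) := by
      rw [abs_mul]
      push_cast
      refine mul_le_mul ?_ hx (abs_nonneg _) (by positivity)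
      rw [abs_of_nonneg (by positivity)]
      exact_mod_cast haN
    rw [abs_le] at hax
    have hb1 : (1 : ℤ) ≤ b := by exact_mod_cast hb
    rw [mem_union, mem_Ioc, mem_Ioc]
    rcases hy3 with hy3 | hy3
    · left
      refine ⟨hy1, ?_⟩
      have h1 : (b : ℤ) * (y - u₂) ≤ (N * R : ℕ) := by
        have : (b : ℤ) * (y - u₂) = b * y - b * u₂ := by ring
        rw [this]; linarith
      have h2 : 1 * (y - u₂) ≤ (b : ℤ) * (y - u₂) := mul_le_mul_of_nonneg_right hb1 (by linarith)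
      linarith
    · right
      refine ⟨?_, hy2⟩
      have h1 : (b : ℤ) * (u₂ + M₂ - y) < (N * R : ℕ) := by
        have : (b : ℤ) * (u₂ + M₂ - y) = b * (u₂ + M₂) - b * y := by ring
        rw [this]; linarith
      have h2 : 1 * (u₂ + M₂ - y) ≤ (b : ℤ) * (u₂ + M₂ - y) :=
        mul_le_mul_of_nonneg_right hb1 (by linarith)
      linarith
  refine (Finset.card_le_card hsub).trans ((Finset.card_union_le _ _).trans ?_)
  rw [Int.card_Ioc, Int.card_Ioc]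
  have e1 : (u₂ + (N * R : ℕ) - u₂).toNat = N * R := by
    rw [add_sub_cancel_left]; exact Int.toNat_natCast _
  have e2 : (u₂ + M₂ - (u₂ + M₂ - (N * R : ℕ))).toNat = N * R := by
    rw [sub_sub_cancel]; exact Int.toNat_natCast _
  rw [e1, e2]
  omega

open Classical in
/-- Row PU. -/
theorem PU (h1 : CN_stmt) (h2 : GC_stmt) : PU_stmt := by
  intro W N hW hW30 hN δ hδ
  have hNr : (0 : ℝ) < N := by exact_mod_cast hN
  have hWr : (0 : ℝ) < W := by exact_mod_cast hW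
  obtain ⟨M₁₀, hM₁₀⟩ := exists_nat_ge (2 * W * N / δ)
  refine ⟨M₁₀, fun M₁ hM₁ u₁ => ?_⟩
  set R : ℕ := u₁.natAbs + M₁ with hR
  obtain ⟨M₂₀, hM₂₀⟩ := exists_nat_ge ((N : ℝ) * N * (2 * (N * R)) / δ)
  refine ⟨M₂₀, fun M₂ hM₂ u₂ => ?_⟩
  -- notation
  let ga : ℕ → ℕ → ℕ := fun α α' => α' / Nat.gcd α α'
  let gb : ℕ → ℕ → ℕ := fun α α' => α / Nat.gcd α α'
  let cc : ℕ → ℕ → ℤ → ℤ → ℤ := fun α α' x y => (gb α α' : ℤ) * y - (ga α α' : ℤ) * x
  let win : ℕ → Finset ℤ := fun b => Ioc ((b : ℤ) * u₂) ((b : ℤ) * (u₂ + M₂))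
  have hga : ∀ α α' : ℕ, 0 < α → 0 < α' → 0 < Nat.gcd α α' ∧ α = Nat.gcd α α' * gb α α' ∧
      α' = Nat.gcd α α' * ga α α' ∧ Nat.Coprime (ga α α') (gb α α') ∧ 0 < ga α α' ∧ 0 < gb α α' ∧
      ga α α' ≤ α' := by
    intro α α' hα hα'
    have hg : 0 < Nat.gcd α α' := Nat.gcd_pos_of_pos_left _ hα
    refine ⟨hg, (Nat.mul_div_cancel' (Nat.gcd_dvd_left _ _)).symm,
      (Nat.mul_div_cancel' (Nat.gcd_dvd_right _ _)).symm, (Nat.coprime_div_gcd_div_gcd hg).symm, ?_, ?_,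
      Nat.div_le_self _ _⟩
    · exact Nat.div_pos (Nat.le_of_dvd hα' (Nat.gcd_dvd_right _ _)) hg
    · exact Nat.div_pos (Nat.le_of_dvd hα (Nat.gcd_dvd_left _ _)) hg
  -- the pointwise bound
  let A : ℕ × ℤ → ℕ × ℤ → ℝ := fun v w =>
    if (IsCoprime v.2 (W : ℤ) ∧ IsCoprime w.2 (W : ℤ)) ∧
      TrueCase (ga v.1 w.1) (gb v.1 w.1) (cc v.1 w.1 v.2 w.2) ∧ cc v.1 w.1 v.2 w.2 ∈ win (gb v.1 w.1)
    then 1 / ((v.1 : ℝ) * w.1) else 0
  let B : ℕ × ℤ → ℕ × ℤ → ℝ := fun v w =>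
    if ¬ cc v.1 w.1 v.2 w.2 ∈ win (gb v.1 w.1) then 1 else 0
  have hA0 : ∀ v w, 0 ≤ A v w := fun v w => by
    simp only [A]; split_ifs <;> positivity
  have hB0 : ∀ v w, 0 ≤ B v w := fun v w => by
    simp only [B]; split_ifs <;> norm_num
  have hpt : ∀ v ∈ XX W N M₁ u₁, ∀ w ∈ XX W N M₂ u₂,
      (if v ≠ w ∧ Rl v w then 1 / ((v.1 : ℝ) * w.1) else 0) ≤ A v w + B v w := by
    intro v hv w hw
    split_ifs with hc
    · have hv' := (mem_filter.mp hv).2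
      have hw' := (mem_filter.mp hw).2
      obtain ⟨hg, e1, e2, hco, ha, hb, _⟩ := hga v.1 w.1 hv'.1 hw'.1
      have hT : TrueCase (ga v.1 w.1) (gb v.1 w.1) (cc v.1 w.1 v.2 w.2) :=
        PU_tc W hW30 v w hv' hw' hc.1 hc.2 _ _ _ e1 e2 hco
      have hle1 : 1 / ((v.1 : ℝ) * w.1) ≤ 1 := by
        have h1 : (1 : ℝ) ≤ v.1 := by exact_mod_cast hv'.1
        have h2 : (1 : ℝ) ≤ w.1 := by exact_mod_cast hw'.1
        rw [div_le_one (by positivity)]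
        nlinarith
      by_cases hwin : cc v.1 w.1 v.2 w.2 ∈ win (gb v.1 w.1)
      · have hAe : A v w = 1 / ((v.1 : ℝ) * w.1) := by
          simp only [A]
          rw [if_pos ⟨⟨hv'.2.2, hw'.2.2⟩, hT, hwin⟩]
        rw [hAe]
        linarith [hB0 v w]
      · have hBe : B v w = 1 := by
          simp only [B]
          rw [if_pos hwin]
        rw [hBe]
        linarith [hA0 v w]
    · exact add_nonneg (hA0 v w) (hB0 v w)
  have hsubX : ∀ (M : ℕ) (u : ℤ), XX W N M u ⊆ (Icc 1 N) ×ˢ (Ioc u (u + M)) := fun M u =>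
    filter_subset _ _
  have hstep1 : (∑ v ∈ XX W N M₁ u₁, ∑ w ∈ XX W N M₂ u₂,
      if v ≠ w ∧ Rl v w then 1 / ((v.1 : ℝ) * w.1) else 0) ≤
      (∑ v ∈ (Icc 1 N) ×ˢ (Ioc u₁ (u₁ + M₁)), ∑ w ∈ (Icc 1 N) ×ˢ (Ioc u₂ (u₂ + M₂)), A v w) +
      ∑ v ∈ (Icc 1 N) ×ˢ (Ioc u₁ (u₁ + M₁)), ∑ w ∈ (Icc 1 N) ×ˢ (Ioc u₂ (u₂ + M₂)), B v w := by
    calc _ ≤ ∑ v ∈ XX W N M₁ u₁, ∑ w ∈ XX W N M₂ u₂, (A v w + B v w) :=
          Finset.sum_le_sum fun v hv => Finset.sum_le_sum fun w hw => hpt v hv w hw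
      _ ≤ ∑ v ∈ XX W N M₁ u₁, ∑ w ∈ (Icc 1 N) ×ˢ (Ioc u₂ (u₂ + M₂)), (A v w + B v w) :=
          Finset.sum_le_sum fun v _ => Finset.sum_le_sum_of_subset_of_nonneg (hsubX _ _)
            fun w _ _ => add_nonneg (hA0 v w) (hB0 v w)
      _ ≤ ∑ v ∈ (Icc 1 N) ×ˢ (Ioc u₁ (u₁ + M₁)), ∑ w ∈ (Icc 1 N) ×ˢ (Ioc u₂ (u₂ + M₂)),
            (A v w + B v w) :=
          Finset.sum_le_sum_of_subset_of_nonneg (hsubX _ _) fun v _ _ =>
            Finset.sum_nonneg fun w _ => add_nonneg (hA0 v w) (hB0 v w)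
      _ = _ := by
          rw [← Finset.sum_add_distrib]
          exact Finset.sum_congr rfl fun v _ => Finset.sum_add_distrib
  -- part (B)
  have hBsum : (∑ v ∈ (Icc 1 N) ×ˢ (Ioc u₁ (u₁ + M₁)), ∑ w ∈ (Icc 1 N) ×ˢ (Ioc u₂ (u₂ + M₂)), B v w) ≤
      δ * M₁ * M₂ := by
    have hone : ∀ v ∈ (Icc 1 N) ×ˢ (Ioc u₁ (u₁ + M₁)),
        ∑ w ∈ (Icc 1 N) ×ˢ (Ioc u₂ (u₂ + M₂)), B v w ≤ (N : ℝ) * (2 * (N * R)) := by
      intro v hv
      rw [mem_product, mem_Icc, mem_Ioc] at hv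
      rw [Finset.sum_product]
      have hin : ∀ α' ∈ Icc 1 N, ∑ y ∈ Ioc u₂ (u₂ + M₂), B v (α', y) ≤ (2 * (N * R) : ℝ) := by
        intro α' hα'
        rw [mem_Icc] at hα'
        simp only [B]
        rw [Finset.sum_boole]
        obtain ⟨_, _, _, _, _, hb, hle⟩ := hga v.1 α' hv.1.1 hα'.1
        have hxR : |v.2| ≤ (R : ℤ) := by
          rw [hR, abs_le]
          push_cast
          have := neg_abs_le u₁
          have := le_abs_self u₁
          constructor <;> omega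
        have := PU_B (ga v.1 α') (gb v.1 α') N R v.2 u₂ M₂ hb (hle.trans hα'.2) hxR
        exact_mod_cast this
      calc _ ≤ ∑ _α' ∈ Icc 1 N, (2 * (N * R) : ℝ) := Finset.sum_le_sum hin
        _ = (N : ℝ) * (2 * (N * R)) := by rw [Finset.sum_const, Nat.card_Icc]; simp
    calc _ ≤ ∑ _v ∈ (Icc 1 N) ×ˢ (Ioc u₁ (u₁ + M₁)), (N : ℝ) * (2 * (N * R)) := Finset.sum_le_sum hone
      _ = (N : ℝ) * M₁ * (N * (2 * (N * R))) := by
          rw [Finset.sum_const, Finset.card_product, Nat.card_Icc, Int.card_Ioc, add_sub_cancel_left,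
            Int.toNat_natCast]
          simp
      _ = ((N : ℝ) * N * (2 * (N * R))) * M₁ := by ring
      _ ≤ (δ * M₂) * M₁ := by
          refine mul_le_mul_of_nonneg_right ?_ (by positivity)
          have h3 : (N : ℝ) * N * (2 * (N * R)) / δ ≤ M₂ := hM₂₀.trans (by exact_mod_cast hM₂)
          rw [div_le_iff₀ hδ] at h3
          linarith
      _ = δ * M₁ * M₂ := by ring
  -- part (A)
  let T : ℕ → ℕ → ℝ := fun a b =>
    (#{p ∈ Ioc u₁ (u₁ + M₁) ×ˢ Ioc u₂ (u₂ + M₂) | (IsCoprime p.1 (W : ℤ) ∧ IsCoprime p.2 (W : ℤ)) ∧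
      TrueCase a b ((b : ℤ) * p.2 - a * p.1) ∧
      (b : ℤ) * p.2 - a * p.1 ∈ Ioc ((b : ℤ) * u₂) ((b : ℤ) * (u₂ + M₂))} : ℝ)
  have hAT : (∑ v ∈ (Icc 1 N) ×ˢ (Ioc u₁ (u₁ + M₁)), ∑ w ∈ (Icc 1 N) ×ˢ (Ioc u₂ (u₂ + M₂)), A v w) =
      ∑ α' ∈ Icc 1 N, ∑ α ∈ Icc 1 N, 1 / ((α : ℝ) * α') * T (ga α α') (gb α α') := by
    rw [Finset.sum_comm (s := Icc 1 N) (t := Icc 1 N), Finset.sum_product]
    refine Finset.sum_congr rfl fun α _ => ?_
    rw [Finset.sum_congr rfl fun x _ => Finset.sum_product (Icc 1 N) (Ioc u₂ (u₂ + M₂)) (A (α, x)),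
      Finset.sum_comm]
    refine Finset.sum_congr rfl fun α' _ => ?_
    have e2 : ∀ x ∈ Ioc u₁ (u₁ + M₁), ∀ y ∈ Ioc u₂ (u₂ + M₂), A (α, x) (α', y) =
        1 / ((α : ℝ) * α') * (if (IsCoprime x (W : ℤ) ∧ IsCoprime y (W : ℤ)) ∧
          TrueCase (ga α α') (gb α α') ((gb α α' : ℤ) * y - (ga α α' : ℤ) * x) ∧
          (gb α α' : ℤ) * y - (ga α α' : ℤ) * x ∈
            Ioc ((gb α α' : ℤ) * u₂) ((gb α α' : ℤ) * (u₂ + M₂)) then (1 : ℝ) else 0) := by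
      intro x _ y _
      simp only [A, cc, win]
      split_ifs <;> simp
    rw [Finset.sum_congr rfl fun x hx => Finset.sum_congr rfl fun y hy => e2 x hx y hy]
    simp_rw [← Finset.mul_sum]
    congr 1
    simp only [T]
    rw [← Finset.sum_boole, Finset.sum_product]
  have hGC := h2 N (fun α' α => 1 / ((α : ℝ) * α') * T (ga α α') (gb α α'))
  -- the bound for fixed `g, a, b`
  let S : ℕ → ℕ → ℝ := fun a b =>
    ∑ c ∈ Ioc ((b : ℤ) * u₂) ((b : ℤ) * (u₂ + M₂)) with TrueCase a b c, Lam W a b c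
  have hS0 : ∀ a b, 0 ≤ S a b := fun a b => Finset.sum_nonneg fun c _ => PU_Lam_nonneg W a b c
  have hfix : ∀ g ∈ Icc 1 N, ∀ a ∈ Icc 1 (N / g), ∀ b ∈ Icc 1 (N / g), Nat.Coprime a b →
      1 / (((g * b : ℕ) : ℝ) * (g * a : ℕ)) * T (ga (g * b) (g * a)) (gb (g * b) (g * a)) ≤
      (1 + δ) * M₁ * (1 / (g : ℝ) ^ 2) * (1 / ((a : ℝ) * (b : ℝ) ^ 2) * S a b) := by
    intro g hg a ha b hb hab
    rw [mem_Icc] at hg ha hb
    have hg0 : 0 < g := hg.1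
    have ha0 : 0 < a := ha.1
    have hb0 : 0 < b := hb.1
    have hgcd : Nat.gcd (g * b) (g * a) = g := by
      rw [Nat.gcd_mul_left, Nat.Coprime.gcd_eq_one hab.symm, mul_one]
    have eb : gb (g * b) (g * a) = b := by
      simp only [gb]; rw [hgcd, Nat.mul_div_cancel_left _ hg0]
    have ea : ga (g * b) (g * a) = a := by
      simp only [ga]; rw [hgcd, Nat.mul_div_cancel_left _ hg0]
    rw [ea, eb]
    have hgr : (0 : ℝ) < g := by exact_mod_cast hg0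
    have har : (0 : ℝ) < a := by exact_mod_cast ha0
    have hbr : (0 : ℝ) < b := by exact_mod_cast hb0
    have hbN : (b : ℝ) ≤ N := by exact_mod_cast hb.2.trans (Nat.div_le_self _ _)
    have hTle : T a b ≤ ((M₁ : ℝ) / b + 2 * W) * S a b := by
      have := PU_T h1 W a b hW ha0 hb0 hab u₁ u₂ M₁ M₂
      simp only [T, S]
      rw [Finset.mul_sum]
      exact this
    have hM : (M₁ : ℝ) / b + 2 * W ≤ (1 + δ) * M₁ / b := by
      have h3 : 2 * (W : ℝ) * N / δ ≤ M₁ := hM₁₀.trans (by exact_mod_cast hM₁)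
      rw [div_le_iff₀ hδ] at h3
      have h4 : 2 * (W : ℝ) * b ≤ M₁ * δ := by
        have : 2 * (W : ℝ) * b ≤ 2 * W * N := mul_le_mul_of_nonneg_left hbN (by positivity)
        linarith
      have h5 : 2 * (W : ℝ) ≤ M₁ * δ / b := by
        rw [le_div_iff₀ hbr]; exact h4
      have e : (1 + δ) * (M₁ : ℝ) / b = M₁ / b + M₁ * δ / b := by ring
      rw [e]; linarith
    have hw0 : (0 : ℝ) ≤ 1 / (((g * b : ℕ) : ℝ) * (g * a : ℕ)) := by positivity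
    calc _ ≤ 1 / (((g * b : ℕ) : ℝ) * (g * a : ℕ)) * (((1 + δ) * M₁ / b) * S a b) :=
          mul_le_mul_of_nonneg_left (hTle.trans (mul_le_mul_of_nonneg_right hM (hS0 a b))) hw0
      _ = _ := by
          push_cast
          field_simp
  have hAsum : (∑ v ∈ (Icc 1 N) ×ˢ (Ioc u₁ (u₁ + M₁)), ∑ w ∈ (Icc 1 N) ×ˢ (Ioc u₂ (u₂ + M₂)), A v w) ≤
      (1 + δ) * ZZ N * M₁ * Sm TrueCase (Lam W) N M₂ u₂ := by
    rw [hAT, hGC]
    have hbd : ∀ g ∈ Icc 1 N, (∑ a ∈ Icc 1 (N / g), ∑ b ∈ Icc 1 (N / g) with Nat.Coprime a b,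
        1 / (((g * b : ℕ) : ℝ) * (g * a : ℕ)) * T (ga (g * b) (g * a)) (gb (g * b) (g * a))) ≤
        (1 + δ) * M₁ * (1 / (g : ℝ) ^ 2) * Sm TrueCase (Lam W) N M₂ u₂ := by
      intro g hg
      have hsub : Icc 1 (N / g) ⊆ Icc 1 N := Icc_subset_Icc_right (Nat.div_le_self _ _)
      calc _ ≤ ∑ a ∈ Icc 1 (N / g), ∑ b ∈ Icc 1 (N / g) with Nat.Coprime a b,
            (1 + δ) * M₁ * (1 / (g : ℝ) ^ 2) * (1 / ((a : ℝ) * (b : ℝ) ^ 2) * S a b) :=
            Finset.sum_le_sum fun a ha => Finset.sum_le_sum fun b hb => by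
              rw [mem_filter] at hb
              exact hfix g hg a ha b hb.1 hb.2
        _ ≤ ∑ a ∈ Icc 1 N, ∑ b ∈ Icc 1 N,
            (1 + δ) * M₁ * (1 / (g : ℝ) ^ 2) * (1 / ((a : ℝ) * (b : ℝ) ^ 2) * S a b) := by
            refine (Finset.sum_le_sum fun a _ => Finset.sum_le_sum_of_subset_of_nonneg
              ((filter_subset _ _).trans hsub) fun b _ _ => ?_).trans
              (Finset.sum_le_sum_of_subset_of_nonneg hsub fun a _ _ => Finset.sum_nonneg fun b _ => ?_)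
            · have := hS0 a b
              positivity
            · have := hS0 a b
              positivity
        _ = _ := by
            unfold Sm
            rw [Finset.mul_sum]
            refine Finset.sum_congr rfl fun a _ => ?_
            rw [Finset.mul_sum]
    refine (Finset.sum_le_sum hbd).trans (le_of_eq ?_)
    unfold ZZ
    rw [← Finset.sum_mul, ← Finset.mul_sum]
    ring
  linarith

end Pool.Agent.helper11.TX
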